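import Pool.Agent.W751.CV.Stm

/-!
# Part AND of project CV: Andreief's identity for polynomials
(helper349; the computation follows `Pool.Agent.H940R3.VD.Andr`)
-/

set_option autoImplicit false

open Matrix MeasureTheory Metric Filter Topology Polynomial
open scoped ComplexOrder

namespace Pool.Agent.W349.CV

lemma det_sq {N : ℕ} (φ : Fin N → ℂ[X]) (z : Fin N → ℂ) :
    ((‖(Matrix.of fun i j => (φ j).eval (z i)).det‖ ^ 2 : ℝ) : ℂ) =
      ∑ τ : Equiv.Perm (Fin N), ∑ σ : Equiv.Perm (Fin N),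
        (((Equiv.Perm.sign τ : ℤ) : ℂ) * ((Equiv.Perm.sign σ : ℤ) : ℂ)) *
          ∏ j, ((starRingEnd ℂ) ((φ (τ j)).eval (z j)) * (φ (σ j)).eval (z j)) := by
  have e1 : ((‖(Matrix.of fun i j => (φ j).eval (z i)).det‖ ^ 2 : ℝ) : ℂ) =
      (starRingEnd ℂ) (Matrix.of fun i j => (φ j).eval (z i)).det *
        (Matrix.of fun i j => (φ j).eval (z i)).det := by
    rw [mul_comm, Complex.mul_conj, Complex.normSq_eq_norm_sq]
  have e2 : (Matrix.of fun i j => (φ j).eval (z i)).det = ∑ σ : Equiv.Perm (Fin N),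
      ((Equiv.Perm.sign σ : ℤ) : ℂ) * ∏ j, (φ (σ j)).eval (z j) := by
    rw [← det_transpose, det_apply']
    rfl
  rw [e1, e2, map_sum, Finset.sum_mul_sum]
  apply Finset.sum_congr rfl
  intro τ _
  apply Finset.sum_congr rfl
  intro σ _
  rw [map_mul, map_prod, map_intCast, Finset.prod_mul_distrib]
  ring

theorem and : Pool.Agent.W751.CV.S_AND := by
  intro N ν _ B hB φ
  have hint : ∀ α β : Fin N, Integrable (fun x => (starRingEnd ℂ) ((φ α).eval x) * (φ β).eval x) ν := by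
    intro α β
    have hc : Continuous (fun x : ℂ => (starRingEnd ℂ) ((φ α).eval x) * (φ β).eval x) :=
      (Complex.continuous_conj.comp (φ α).continuous).mul (φ β).continuous
    have h1 : IntegrableOn (fun x : ℂ => (starRingEnd ℂ) ((φ α).eval x) * (φ β).eval x)
        (Metric.closedBall (0 : ℂ) B) ν :=
      hc.continuousOn.integrableOn_compact (isCompact_closedBall 0 B)
    have h2 : ν.restrict (Metric.closedBall (0 : ℂ) B) = ν := by
      apply Measure.restrict_eq_self_of_ae_mem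
      rw [ae_iff]
      exact hB
    rw [IntegrableOn, h2] at h1
    exact h1
  have hI0 : ∀ τ σ : Equiv.Perm (Fin N), Integrable (fun z : Fin N → ℂ =>
      ∏ j, ((starRingEnd ℂ) ((φ (τ j)).eval (z j)) * (φ (σ j)).eval (z j)))
      (Measure.pi fun _ : Fin N => ν) := by
    intro τ σ
    exact Integrable.fintype_prod
      (f := fun j x => (starRingEnd ℂ) ((φ (τ j)).eval x) * (φ (σ j)).eval x)
      (μ := fun _ : Fin N => ν) (fun j => hint (τ j) (σ j))
  have hI : ∀ τ σ : Equiv.Perm (Fin N), Integrable (fun z : Fin N → ℂ =>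
      (((Equiv.Perm.sign τ : ℤ) : ℂ) * ((Equiv.Perm.sign σ : ℤ) : ℂ)) *
        ∏ j, ((starRingEnd ℂ) ((φ (τ j)).eval (z j)) * (φ (σ j)).eval (z j)))
      (Measure.pi fun _ : Fin N => ν) := fun τ σ => (hI0 τ σ).const_mul _
  have hI2 : ∀ τ : Equiv.Perm (Fin N), Integrable (fun z : Fin N → ℂ =>
      ∑ σ : Equiv.Perm (Fin N), (((Equiv.Perm.sign τ : ℤ) : ℂ) * ((Equiv.Perm.sign σ : ℤ) : ℂ)) *
        ∏ j, ((starRingEnd ℂ) ((φ (τ j)).eval (z j)) * (φ (σ j)).eval (z j)))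
      (Measure.pi fun _ : Fin N => ν) := fun τ => integrable_finsetSum _ fun σ _ => hI τ σ
  have hI3 : Integrable (fun z : Fin N → ℂ =>
      ((‖(Matrix.of fun i j => (φ j).eval (z i)).det‖ ^ 2 : ℝ) : ℂ))
      (Measure.pi fun _ : Fin N => ν) := by
    have h1 : (fun z : Fin N → ℂ => ((‖(Matrix.of fun i j => (φ j).eval (z i)).det‖ ^ 2 : ℝ) : ℂ)) =
        fun z => ∑ τ : Equiv.Perm (Fin N), ∑ σ : Equiv.Perm (Fin N),
        (((Equiv.Perm.sign τ : ℤ) : ℂ) * ((Equiv.Perm.sign σ : ℤ) : ℂ)) *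
          ∏ j, ((starRingEnd ℂ) ((φ (τ j)).eval (z j)) * (φ (σ j)).eval (z j)) := by
      funext z
      exact det_sq φ z
    rw [h1]
    exact integrable_finsetSum _ fun τ _ => hI2 τ
  refine ⟨?_, ?_⟩
  · have h1 := hI3.re
    have h2 : (fun z : Fin N → ℂ => RCLike.re
        (((‖(Matrix.of fun i j => (φ j).eval (z i)).det‖ ^ 2 : ℝ) : ℂ))) =
        fun z => ‖(Matrix.of fun i j => (φ j).eval (z i)).det‖ ^ 2 := by
      funext z
      exact Complex.ofReal_re _
    rw [h2] at h1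
    exact h1
  rw [← integral_complex_ofReal]
  set G : Matrix (Fin N) (Fin N) ℂ := Matrix.of fun j k : Fin N =>
        ∫ x, (starRingEnd ℂ) ((φ j).eval x) * (φ k).eval x ∂ν with hG
  have h2 : ∀ τ : Equiv.Perm (Fin N), ∫ z : Fin N → ℂ, ∑ σ : Equiv.Perm (Fin N),
      (((Equiv.Perm.sign τ : ℤ) : ℂ) * ((Equiv.Perm.sign σ : ℤ) : ℂ)) *
        ∏ j, ((starRingEnd ℂ) ((φ (τ j)).eval (z j)) * (φ (σ j)).eval (z j))
          ∂(Measure.pi fun _ : Fin N => ν) = G.det := by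
    intro τ
    rw [integral_finsetSum _ (fun σ _ => hI τ σ)]
    have h4 : ∀ σ : Equiv.Perm (Fin N), ∫ z : Fin N → ℂ,
        (((Equiv.Perm.sign τ : ℤ) : ℂ) * ((Equiv.Perm.sign σ : ℤ) : ℂ)) *
        ∏ j, ((starRingEnd ℂ) ((φ (τ j)).eval (z j)) * (φ (σ j)).eval (z j))
          ∂(Measure.pi fun _ : Fin N => ν) =
        ((Equiv.Perm.sign τ : ℤ) : ℂ) * (((Equiv.Perm.sign σ : ℤ) : ℂ) *
          ∏ j, G (τ j) (σ j)) := by
      intro σ
      rw [integral_const_mul]
      have h5 := integral_fintype_prod_eq_prod (𝕜 := ℂ) (μ := fun _ : Fin N => ν)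
        (fun (j : Fin N) x => (starRingEnd ℂ) ((φ (τ j)).eval x) * (φ (σ j)).eval x)
      rw [h5, mul_assoc]
      rfl
    rw [Finset.sum_congr rfl fun σ _ => h4 σ, ← Finset.mul_sum]
    have h5 : ∑ σ : Equiv.Perm (Fin N), ((Equiv.Perm.sign σ : ℤ) : ℂ) * ∏ j, G (τ j) (σ j) =
        ((Equiv.Perm.sign τ : ℤ) : ℂ) * G.det := by
      have h6 := Matrix.det_permute τ G
      rw [← h6, ← det_transpose, det_apply']
      rfl
    rw [h5, ← mul_assoc]
    have h7 : ((Equiv.Perm.sign τ : ℤ) : ℂ) * ((Equiv.Perm.sign τ : ℤ) : ℂ) = 1 := by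
      rcases Int.units_eq_one_or (Equiv.Perm.sign τ) with h | h <;> rw [h] <;> simp
    rw [h7, one_mul]
  rw [integral_congr_ae (Filter.Eventually.of_forall (det_sq φ)),
    integral_finsetSum _ (fun τ _ => hI2 τ), Finset.sum_congr rfl fun τ _ => h2 τ,
    Finset.sum_const, Finset.card_univ, Fintype.card_perm, Fintype.card_fin, nsmul_eq_mul]

end Pool.Agent.W349.CV
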